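import Pool.Agent.N848.OL.Stm

/-!
# Leaf OL/MUZ (helper218, for project OL of helper848)
-/

set_option autoImplicit false

namespace Pool.Agent.N218.OL

open NumberField IsDedekindDomain

/-- the general form, for a valuation of a field -/
theorem muz_val {K : Type*} [Field K] {Γ : Type*} [LinearOrderedCommGroupWithZero Γ]
    (v : Valuation K Γ) (p : ℕ) (hp : p.Prime) (h2 : 2 < p) (hv1 : v (p : K) < 1)
    (hv0 : v (p : K) ≠ 0) (hne : ∀ x : K, v x ^ (p - 1) ≠ v (p : K)) (hint : ∀ n : ℕ, v (n : K) ≤ 1)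
    (z : K) (M : ℕ) (hM : 1 ≤ M) (h : v (z ^ p - 1) ≤ v ((p : K) ^ M)) :
    v (z - 1) ≤ v ((p : K) ^ (M - 1)) := by
  have hp0 : p ≠ 0 := hp.ne_zero
  have hzp : v (z ^ p - 1) < 1 := by
    refine lt_of_le_of_lt h ?_
    rw [map_pow]
    exact pow_lt_one₀ zero_le' hv1 (by omega)
  have hz1 : v z = 1 := by
    have h1 : v (z ^ p) = 1 := by
      have h3 : v (1 + (z ^ p - 1)) = 1 := v.map_one_add_of_lt hzp
      rwa [add_sub_cancel] at h3
    rw [map_pow] at h1
    exact (pow_eq_one_iff_of_nonneg zero_le' hp0).1 h1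
  set t : K := z - 1 with ht
  have hzt : z = t + 1 := by rw [ht]; ring
  have ht1 : v t ≤ 1 := by
    rw [ht]
    refine (v.map_sub z 1).trans ?_
    rw [hz1, map_one, max_self]
  set s : K := ∑ k ∈ Finset.Ioo 1 p, t ^ (k - 2) * ((p.choose k / p : ℕ) : K) with hs
  have hs1 : v s ≤ 1 := by
    refine v.map_sum_le fun k _ => ?_
    rw [map_mul, map_pow]
    exact mul_le_one' (pow_le_one' ht1 _) (hint _)
  have hexp : z ^ p - 1 = t * (t ^ (p - 1) + (p : K) * (1 + t * s)) := by
    have hsum : ∑ k ∈ Finset.Ioo 0 p, t ^ (k - 1) * (1 : K) ^ (p - k - 1) * ((p.choose k / p : ℕ) : K)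
        = 1 + t * s := by
      have hset : Finset.Ioo 0 p = insert 1 (Finset.Ioo 1 p) := by
        ext k
        simp only [Finset.mem_Ioo, Finset.mem_insert]
        omega
      rw [hset, Finset.sum_insert (by simp), hs, Finset.mul_sum]
      congr 1
      · rw [Nat.choose_one_right, Nat.div_self hp.pos]
        simp
      · refine Finset.sum_congr rfl fun k hk => ?_
        rw [Finset.mem_Ioo] at hk
        obtain ⟨j, rfl⟩ : ∃ j, k = j + 2 := ⟨k - 2, by omega⟩
        rw [one_pow, Nat.add_sub_cancel, show j + 2 - 1 = j + 1 from rfl, pow_succ]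
        ring
    rw [hzt, add_pow_prime_eq hp, hsum]
    obtain ⟨q, hq⟩ : ∃ q, p = q + 1 := ⟨p - 1, by omega⟩
    have hpq : t ^ p = t * t ^ (p - 1) := by
      rw [hq, Nat.add_sub_cancel, pow_succ]; ring
    rw [hpq]
    ring
  have hts : v t < 1 := by
    have h5 : t ^ p = (z ^ p - 1) - (p : K) * (t * (1 + t * s)) := by
      have hpq : t ^ p = t * t ^ (p - 1) := by
        obtain ⟨q, hq⟩ : ∃ q, p = q + 1 := ⟨p - 1, by omega⟩
        rw [hq, Nat.add_sub_cancel, pow_succ]; ring
      rw [hexp, hpq]; ring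
    have h6 : v (t ^ p) < 1 := by
      rw [h5]
      refine (v.map_sub _ _).trans_lt (max_lt hzp ?_)
      rw [map_mul]
      have h7 : v (t * (1 + t * s)) ≤ 1 := by
        rw [map_mul]
        refine mul_le_one' ht1 ?_
        refine (v.map_add _ _).trans (max_le (by rw [map_one]) ?_)
        rw [map_mul]
        exact mul_le_one' ht1 hs1
      exact lt_of_le_of_lt (mul_le_of_le_one_right' h7) hv1
    rw [map_pow] at h6
    by_contra h8
    rw [not_lt] at h8
    exact absurd h6 (not_lt.2 (one_le_pow₀ h8))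
  have h9 : v (1 + t * s) = 1 := by
    apply v.map_one_add_of_lt
    rw [map_mul]
    exact lt_of_le_of_lt (mul_le_of_le_one_right' hs1) hts
  have h10 : v (p : K) ≤ v (t ^ (p - 1) + (p : K) * (1 + t * s)) := by
    have h11 : v (t ^ (p - 1)) ≠ v ((p : K) * (1 + t * s)) := by
      rw [map_mul, h9, mul_one, map_pow]
      exact hne t
    rw [v.map_add_of_distinct_val h11]
    refine le_trans ?_ (le_max_right _ _)
    rw [map_mul, h9, mul_one]
  have h12 : v t * v (p : K) ≤ v (p : K) ^ (M - 1) * v (p : K) := by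
    calc v t * v (p : K) ≤ v t * v (t ^ (p - 1) + (p : K) * (1 + t * s)) := by gcongr
      _ = v (z ^ p - 1) := by rw [hexp, map_mul]
      _ ≤ v ((p : K) ^ M) := h
      _ = v (p : K) ^ (M - 1) * v (p : K) := by
          rw [map_pow, ← pow_succ]
          congr 1
          omega
  rw [map_pow]
  exact le_of_mul_le_mul_right h12 (zero_lt_iff.2 hv0)

theorem t_MUZ : Pool.Agent.N848.OL.S_MUZ := by
  intro p hpf h2 K _ _ v hv hne z M hM h
  have hp : p.Prime := hpf.out
  have hcast : ∀ n : ℕ, (n : K) = algebraMap (𝓞 K) K (n : 𝓞 K) := fun n => by simp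
  refine muz_val (v.valuation K) p hp h2 ?_ ?_ hne ?_ z M hM h
  · rw [hcast]
    exact (v.valuation_lt_one_iff_mem _).2 hv
  · rw [Valuation.ne_zero_iff]
    exact_mod_cast hp.ne_zero
  · intro n
    rw [hcast]
    exact v.valuation_le_one _

end Pool.Agent.N218.OL
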